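import Pool.Agent.helper5.PR.SpecZ

set_option autoImplicit false

/-!
Project pr, module Z-MAL: a solvable linear group has a triangularisable subgroup of finite index.
-/

namespace Pool.Agent.PR

open Matrix Module

section
variable {K V Q : Type} [Field K] [AddCommGroup V] [Module K V] [Group Q]

theorem Z_MAL_transfer {Q' : Type} [Group Q'] (ρ : Q →* Module.End K V) (σ : Q' →* Module.End K V)
    (h1 : ∀ g, ∃ g', ρ g = σ g') (h2 : ∀ g', ∃ g, σ g' = ρ g) (h : TriS σ) : TriS ρ := by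
  intro W U hW hU hWU
  obtain ⟨v, hv, hv', hv''⟩ := h W U (fun g' w hw => by
      obtain ⟨g, hg⟩ := h2 g'
      rw [hg]
      exact hW g w hw) (fun g' w hw => by
      obtain ⟨g, hg⟩ := h2 g'
      rw [hg]
      exact hU g w hw) hWU
  refine ⟨v, hv, hv', fun g => ?_⟩
  obtain ⟨g', hg'⟩ := h1 g
  rw [hg']
  exact hv'' g'

theorem Z_MAL_step (ρ : Q →* Module.End K V) (v : V) (hv : ∀ g, ∃ c : K, ρ g v = c • v)
    (hL : InvS ρ (K ∙ v)) (h : TriS (quoS ρ (K ∙ v) hL)) : TriS ρ := by
  intro W U hW hU hWU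
  by_cases hvW : v ∉ W ∧ v ∈ U
  · refine ⟨v, hvW.2, hvW.1, fun g => ?_⟩
    obtain ⟨c, hc⟩ := hv g
    exact ⟨c, by rw [hc, sub_self]; exact W.zero_mem⟩
  · have hvW' : v ∈ W ∨ v ∉ U := by
      by_contra hcon
      rw [not_or, not_not] at hcon
      exact hvW hcon
    -- `a • v ∈ U` implies `a • v ∈ W`
    have key : ∀ a : K, a • v ∈ U → a • v ∈ W := by
      intro a ha
      rcases hvW' with h1 | h1
      · exact W.smul_mem a h1
      · by_cases ha0 : a = 0
        · rw [ha0, zero_smul]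
          exact W.zero_mem
        · exfalso
          apply h1
          have h2 := U.smul_mem a⁻¹ ha
          rwa [smul_smul, inv_mul_cancel₀ ha0, one_smul] at h2
    have hinv : ∀ X : Submodule K V, InvS ρ X → InvS (quoS ρ (K ∙ v) hL) (X.map (K ∙ v).mkQ) := by
      intro X hX g w hw
      obtain ⟨x, hx, rfl⟩ := Submodule.mem_map.mp hw
      exact Submodule.mem_map.mpr ⟨ρ g x, hX g x hx, rfl⟩
    have hmem : ∀ x ∈ U, (K ∙ v).mkQ x ∈ W.map (K ∙ v).mkQ → x ∈ W := by
      intro x hx hx'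
      obtain ⟨w, hw, hwx⟩ := Submodule.mem_map.mp hx'
      have h1 : x - w ∈ K ∙ v := by
        rw [← Submodule.Quotient.mk_eq_zero, Submodule.Quotient.mk_sub, sub_eq_zero]
        exact hwx.symm
      obtain ⟨a, ha⟩ := Submodule.mem_span_singleton.mp h1
      have h2 : a • v ∈ U := by
        rw [ha]
        exact U.sub_mem hx (hWU.le hw)
      have h3 := key a h2
      rw [ha] at h3
      have h4 := W.add_mem h3 hw
      rwa [sub_add_cancel] at h4
    have hlt : W.map (K ∙ v).mkQ < U.map (K ∙ v).mkQ := by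
      refine lt_of_le_of_ne (Submodule.map_mono hWU.le) ?_
      intro heq
      apply hWU.not_ge
      intro x hx
      apply hmem x hx
      rw [heq]
      exact Submodule.mem_map_of_mem hx
    obtain ⟨u', hu', hu'', hu3⟩ := h _ _ (hinv W hW) (hinv U hU) hlt
    obtain ⟨u, hu, rfl⟩ := Submodule.mem_map.mp hu'
    refine ⟨u, hu, fun hcon => hu'' (Submodule.mem_map_of_mem hcon), fun g => ?_⟩
    obtain ⟨c, hc⟩ := hu3 g
    refine ⟨c, ?_⟩
    apply hmem
    · exact U.sub_mem (hU g u hu) (U.smul_mem c hu)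
    · have h5 : (K ∙ v).mkQ (ρ g u - c • u) =
          quoS ρ (K ∙ v) hL g ((K ∙ v).mkQ u) - c • (K ∙ v).mkQ u := by
        rw [map_sub, map_smul]
        rfl
      rw [h5]
      exact hc

end

theorem Z_MAL (hMAL1 : Z_MAL1_stmt) : Z_MAL_stmt := by
  intro K V _ _ _ _ _ Q _ hQ ρ
  obtain ⟨n, hn⟩ : ∃ n : ℕ, n = finrank K V := ⟨_, rfl⟩
  induction n generalizing V Q with
  | zero =>
    refine ⟨⊤, inferInstance, ?_⟩
    intro W U _ _ hWU
    exfalso
    have h0 : Subsingleton V := Module.finrank_zero_iff.mp hn.symm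
    exact hWU.ne (Subsingleton.elim _ _)
  | succ n ih =>
    have hnt : Nontrivial V := Module.finrank_pos_iff.mp (by omega : 0 < finrank K V)
    obtain ⟨G₁, hG₁, v, hv0, hv⟩ := hMAL1 K V Q hQ ρ
    have hL : InvS (ρ.comp G₁.subtype) (K ∙ v) := by
      intro g w hw
      obtain ⟨a, rfl⟩ := Submodule.mem_span_singleton.mp hw
      obtain ⟨c, hc⟩ := hv g.1 g.2
      rw [map_smul]
      refine Submodule.smul_mem _ a ?_
      change ρ g.1 v ∈ _
      rw [hc]
      exact Submodule.smul_mem _ c (Submodule.mem_span_singleton_self v)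
    have hsol : Group.IsSolvable G₁ := by
      have := hQ
      infer_instance
    have hdim : n = finrank K (V ⧸ (K ∙ v)) := by
      have h1 := Submodule.finrank_quotient_add_finrank (K ∙ v)
      rw [finrank_span_singleton hv0] at h1
      omega
    obtain ⟨H, hH, hT⟩ := ih (V ⧸ (K ∙ v)) G₁ hsol (quoS (ρ.comp G₁.subtype) (K ∙ v) hL) hdim
    refine ⟨H.map G₁.subtype, ?_, ?_⟩
    · constructor
      rw [Subgroup.index_map_subtype]
      exact mul_ne_zero hH.index_ne_zero hG₁.index_ne_zero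
    · have hL2 : InvS ((ρ.comp G₁.subtype).comp H.subtype) (K ∙ v) := fun g w hw => hL g.1 w hw
      have hT2 : TriS ((ρ.comp G₁.subtype).comp H.subtype) := by
        refine Z_MAL_step _ v (fun g => ?_) hL2 ?_
        · exact hv g.1.1 g.1.2
        · exact hT
      refine Z_MAL_transfer _ _ ?_ ?_ hT2
      · rintro ⟨g, hg⟩
        obtain ⟨h, hh, rfl⟩ := Subgroup.mem_map.mp hg
        exact ⟨⟨h, hh⟩, rfl⟩
      · rintro ⟨g, hg⟩
        exact ⟨⟨G₁.subtype g, Subgroup.mem_map.mpr ⟨g, hg, rfl⟩⟩, rfl⟩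

end Pool.Agent.PR
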