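import Pool.Agent.helper48.PR.SpecH

/-!
Project pr, module HT: main theorem for Heisenberg groups.
-/

set_option autoImplicit false

namespace Pool.Agent.PR

open Matrix

theorem HT_qM_mul {n q : ℕ} [Fact q.Prime] (A B : GL (Fin n) ℤ_[q]) : qM (A * B) = qM A * qM B := by
  unfold qM
  rw [Units.val_mul, Matrix.map_mul]

theorem HT_qM_one {n q : ℕ} [Fact q.Prime] : qM (1 : GL (Fin n) ℤ_[q]) = 1 := by
  unfold qM
  rw [Units.val_one, Matrix.map_one _ (map_zero _) (map_one _)]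

theorem HT_qM_inj {n q : ℕ} [Fact q.Prime] (A : GL (Fin n) ℤ_[q]) (h : qM A = 1) : A = 1 := by
  apply Units.ext
  have h1 : qM A = qM (1 : GL (Fin n) ℤ_[q]) := by rw [h, HT_qM_one]
  unfold qM at h1
  exact Matrix.map_injective (f := (PadicInt.Coe.ringHom (p := q))) Subtype.val_injective h1

theorem HT (hLRHO : LRHO_stmt) (hLFAI : LFAI_stmt) (hHJ : HJ_stmt) (hLTR : LTR_stmt) : HT_stmt := by
  intro n hn Λ _ hFG hQ1 hQ2 hRF m hm hnm x y z hH hz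
  -- a family
  have hfam : ∀ q : Nat.Primes, ∃ f : Λ →* GL (Fin n) ℤ_[(q : ℕ)], (Set.range f).Infinite := by
    intro q
    exact hLRHO n hn Λ hFG hQ2 q
  choose f hf using hfam
  have hinj := hLFAI n hn Λ hFG hQ1 hRF f hf
  let p : Nat.Primes := ⟨2, Nat.prime_two⟩
  let ρ : Λ →* Matrix (Fin n) (Fin n) ℚ_[(p : ℕ)] :=
    { toFun := fun l => qM (f p l)
      map_one' := by rw [map_one, HT_qM_one]
      map_mul' := fun a b => by rw [map_mul, HT_qM_mul] }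
  obtain ⟨k, hk, hrk⟩ := hHJ n m hm hnm ℚ_[(p : ℕ)] Λ ρ x y z hH (by
    intro k hk h
    have h1 : f p (z ^ k) = 1 := HT_qM_inj _ h
    exact hz k hk (hinj p (by rw [h1, map_one])))
  have hcx : Commute z (x ⟨0, hm⟩) := (hH.xz ⟨0, hm⟩).symm
  have hcy : Commute z (y ⟨0, hm⟩) := (hH.yz ⟨0, hm⟩).symm
  have hpow : ∀ a : ℕ, x ⟨0, hm⟩ ^ a * y ⟨0, hm⟩ = z ^ a * (y ⟨0, hm⟩ * x ⟨0, hm⟩ ^ a) := by
    intro a
    induction a with
    | zero => simp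
    | succ a ih =>
      have h1 := hH.xyz ⟨0, hm⟩
      have h2 : x ⟨0, hm⟩ * z ^ a = z ^ a * x ⟨0, hm⟩ := ((hcx.pow_left a).eq).symm
      calc x ⟨0, hm⟩ ^ (a + 1) * y ⟨0, hm⟩ = x ⟨0, hm⟩ * (x ⟨0, hm⟩ ^ a * y ⟨0, hm⟩) := by
            rw [pow_succ', mul_assoc]
        _ = x ⟨0, hm⟩ * (z ^ a * (y ⟨0, hm⟩ * x ⟨0, hm⟩ ^ a)) := by rw [ih]
        _ = (x ⟨0, hm⟩ * z ^ a) * y ⟨0, hm⟩ * x ⟨0, hm⟩ ^ a := by simp only [mul_assoc]
        _ = z ^ a * (x ⟨0, hm⟩ * y ⟨0, hm⟩) * x ⟨0, hm⟩ ^ a := by rw [h2]; simp only [mul_assoc]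
        _ = z ^ a * (z * (y ⟨0, hm⟩ * x ⟨0, hm⟩)) * x ⟨0, hm⟩ ^ a := by rw [h1]
        _ = z ^ (a + 1) * (y ⟨0, hm⟩ * x ⟨0, hm⟩ ^ (a + 1)) := by
            rw [pow_succ z, pow_succ' (x ⟨0, hm⟩)]; simp only [mul_assoc]
  apply hLTR n hn Λ hFG hQ1 hRF f hf p (z ^ k) (x ⟨0, hm⟩)
  · exact (hcx.pow_left k).eq
  · intro a ha b hab
    have h1 : Commute ((z ^ k) ^ b) (y ⟨0, hm⟩) := (hcy.pow_left k).zpow_left b
    have h2 := hpow a
    rw [hab, h1.eq] at h2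
    have h3 : z ^ a = 1 := by
      have h4 : (1 : Λ) * (y ⟨0, hm⟩ * (z ^ k) ^ b) = z ^ a * (y ⟨0, hm⟩ * (z ^ k) ^ b) := by
        rw [one_mul]; exact h2
      exact (mul_right_cancel h4).symm
    exact hz a ha h3
  · exact hrk

end Pool.Agent.PR
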