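import Pool.Agent.helper5.PR.SpecK

/-!
Project pr, module K-TR: transfer of homomorphisms to profinite groups.
-/

set_option autoImplicit false

namespace Pool.Agent.PR

/-- the set of maps which are good modulo `U` -/
def K_TR_C {Γ Λ P : Type} [Group Γ] [Group Λ] [Group P] (f : Λ →* P) (U : Subgroup P) [U.Normal] :
    Set (Γ → P) :=
  {g | ∃ h : Γ →* P ⧸ U, Set.range h = Set.range (fun l => QuotientGroup.mk' U (f l)) ∧
    ∀ x, QuotientGroup.mk' U (g x) = h x}

theorem K_TR_anti {Γ Λ P : Type} [Group Γ] [Group Λ] [Group P] (f : Λ →* P) (U V : Subgroup P)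
    [U.Normal] [V.Normal] (hUV : U ≤ V) : K_TR_C (Γ := Γ) f U ⊆ K_TR_C f V := by
  rintro g ⟨h, h1, h2⟩
  have hUV' : U ≤ V.comap (MonoidHom.id P) := hUV
  refine ⟨(QuotientGroup.map U V (MonoidHom.id P) hUV').comp h, ?_, ?_⟩
  · rw [MonoidHom.coe_comp, Set.range_comp, h1, ← Set.range_comp]
    rfl
  · intro x
    rw [MonoidHom.comp_apply, ← h2 x]
    rfl

theorem K_TR_nonempty {Γ Λ P : Type} [Group Γ] [Group Λ] [Group P] (hQ : QuotLe Λ Γ) (f : Λ →* P)
    (U : Subgroup P) [U.Normal] [Finite (P ⧸ U)] : (K_TR_C (Γ := Γ) f U).Nonempty := by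
  obtain ⟨k, hk⟩ := hQ ((QuotientGroup.mk' U).comp f).range
    ⟨((QuotientGroup.mk' U).comp f).rangeRestrict, MonoidHom.rangeRestrict_surjective _⟩
  let h : Γ →* P ⧸ U := ((QuotientGroup.mk' U).comp f).range.subtype.comp k
  refine ⟨fun x => Quotient.out (h x), h, ?_, ?_⟩
  · ext y
    constructor
    · rintro ⟨x, rfl⟩
      obtain ⟨l, hl⟩ := (k x).2
      exact ⟨l, hl⟩
    · rintro ⟨l, rfl⟩
      obtain ⟨x, hx⟩ := hk ⟨((QuotientGroup.mk' U).comp f) l, ⟨l, rfl⟩⟩
      refine ⟨x, ?_⟩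
      show ((k x : ((QuotientGroup.mk' U).comp f).range) : P ⧸ U) = _
      rw [hx]
      rfl
  · intro x
    exact QuotientGroup.out_eq' (h x)

theorem K_TR_closed (hH : K_HOM_stmt) {Γ Λ P : Type} [Group Γ] [Group Λ] [Group P]
    [TopologicalSpace P] [IsTopologicalGroup P] [CompactSpace P] (hΓ : Group.FG Γ) (f : Λ →* P)
    (U : OpenNormalSubgroup P) : IsClosed (K_TR_C (Γ := Γ) f U.toSubgroup) := by
  haveI : Finite (P ⧸ U.toSubgroup) := Subgroup.quotient_finite_of_isOpen _ U.isOpen'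
  haveI := hH Γ hΓ (P ⧸ U.toSubgroup)
  haveI : DiscreteTopology (P ⧸ U.toSubgroup) := QuotientGroup.discreteTopology U.isOpen'
  have e : K_TR_C (Γ := Γ) f U.toSubgroup =
      ⋃ h : Γ →* P ⧸ U.toSubgroup, {g : Γ → P | Set.range h = Set.range (fun l =>
        QuotientGroup.mk' U.toSubgroup (f l)) ∧ ∀ x, QuotientGroup.mk' U.toSubgroup (g x) = h x} := by
    ext g
    simp only [K_TR_C, Set.mem_setOf_eq, Set.mem_iUnion]
  rw [e]
  apply isClosed_iUnion_of_finite
  intro h
  rw [Set.setOf_and]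
  apply IsClosed.inter
  · exact isClosed_const
  · rw [Set.setOf_forall]
    apply isClosed_iInter
    intro x
    have hc : Continuous (fun g : Γ → P => QuotientGroup.mk' U.toSubgroup (g x)) :=
      QuotientGroup.continuous_mk.comp (continuous_apply x)
    exact isClosed_eq hc continuous_const

theorem K_TR (hH : K_HOM_stmt) : K_TR_stmt := by
  intro Γ Λ _ _ hΓ hQ P _ _ _ _ _ _ f
  have hne : (⋂ U : OpenNormalSubgroup P, K_TR_C (Γ := Γ) f U.toSubgroup).Nonempty := by
    haveI : Nonempty (OpenNormalSubgroup P) := by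
      obtain ⟨H, -⟩ := ProfiniteGrp.exist_openNormalSubgroup_sub_open_nhds_of_one (G := P)
        isOpen_univ (Set.mem_univ 1)
      exact ⟨H⟩
    apply IsCompact.nonempty_iInter_of_directed_nonempty_isCompact_isClosed
    · intro U V
      refine ⟨U ⊓ V, ?_, ?_⟩
      · apply K_TR_anti
        exact (inf_le_left : U ⊓ V ≤ U)
      · apply K_TR_anti
        exact (inf_le_right : U ⊓ V ≤ V)
    · intro U
      haveI : Finite (P ⧸ U.toSubgroup) := Subgroup.quotient_finite_of_isOpen _ U.isOpen'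
      exact K_TR_nonempty hQ f U.toSubgroup
    · intro U
      exact (K_TR_closed hH hΓ f U).isCompact
    · intro U
      exact K_TR_closed hH hΓ f U
  obtain ⟨g, hg⟩ := hne
  rw [Set.mem_iInter] at hg
  -- separation
  have hsep : ∀ a b : P, (∀ U : OpenNormalSubgroup P, QuotientGroup.mk' U.toSubgroup a =
      QuotientGroup.mk' U.toSubgroup b) → a = b := by
    intro a b hab
    by_contra hne
    have h1 : a⁻¹ * b ≠ 1 := fun h => hne (inv_mul_eq_one.1 h)
    obtain ⟨H, hH⟩ := ProfiniteGrp.exist_openNormalSubgroup_sub_open_nhds_of_one (G := P)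
      (U := {a⁻¹ * b}ᶜ) isOpen_compl_singleton (fun h => h1 h.symm)
    have h2 : a⁻¹ * b ∈ H.toSubgroup := QuotientGroup.eq.1 (hab H)
    exact hH h2 rfl
  have hmul : ∀ x y, g (x * y) = g x * g y := by
    intro x y
    apply hsep
    intro U
    obtain ⟨h, -, h2⟩ := hg U
    rw [h2, map_mul, map_mul, h2, h2]
  have hone : g 1 = 1 := by
    apply hsep
    intro U
    obtain ⟨h, -, h2⟩ := hg U
    rw [h2, map_one, map_one]
  have hcl : ∀ (A B : Set P), (∀ U : OpenNormalSubgroup P, QuotientGroup.mk' U.toSubgroup '' A ⊆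
      QuotientGroup.mk' U.toSubgroup '' B) → closure A ⊆ closure B := by
    intro A B hAB
    apply closure_minimal _ isClosed_closure
    intro a ha
    rw [mem_closure_iff]
    intro O hO haO
    obtain ⟨H, hH⟩ := ProfiniteGrp.exist_openNormalSubgroup_sub_open_nhds_of_one (G := P)
      (U := (fun x => a * x) ⁻¹' O) (hO.preimage (continuous_const_mul a)) (by simpa using haO)
    obtain ⟨b, hb, hb2⟩ := hAB H ⟨a, ha, rfl⟩
    refine ⟨b, ?_, hb⟩
    have h2 : a⁻¹ * b ∈ H.toSubgroup := QuotientGroup.eq.1 hb2.symm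
    have h3 := hH h2
    simpa using h3
  refine ⟨{ toFun := g, map_one' := hone, map_mul' := hmul }, ?_⟩
  apply Set.Subset.antisymm
  · apply hcl
    intro U
    obtain ⟨h, h1, h2⟩ := hg U
    rintro _ ⟨_, ⟨x, rfl⟩, rfl⟩
    have h3 : h x ∈ Set.range (fun l => QuotientGroup.mk' U.toSubgroup (f l)) := by
      rw [← h1]; exact ⟨x, rfl⟩
    obtain ⟨l, hl⟩ := h3
    refine ⟨f l, ⟨l, rfl⟩, ?_⟩
    rw [← h2] at hl
    exact hl
  · apply hcl
    intro U
    obtain ⟨h, h1, h2⟩ := hg U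
    rintro _ ⟨_, ⟨l, rfl⟩, rfl⟩
    have h3 : QuotientGroup.mk' U.toSubgroup (f l) ∈ Set.range h := by
      rw [h1]; exact ⟨l, rfl⟩
    obtain ⟨x, hx⟩ := h3
    refine ⟨g x, ⟨x, rfl⟩, ?_⟩
    rw [h2]
    exact hx

end Pool.Agent.PR
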