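import Pool.Agent.helper5.PR.SpecS

/-!
Project pr, module S-EXA: properties of `RelP` (compactness).
-/

set_option autoImplicit false

namespace Pool.Agent.PR

open Matrix

section MC
variable {n : ℕ} {R : Type} [CommRing R]

theorem S_EXA_iff (m : ℕ) (A B : Matrix (Fin n) (Fin n) R) :
    MC m A B ↔ A.map (Ideal.Quotient.mk (Ideal.span {(m : R)})) =
      B.map (Ideal.Quotient.mk (Ideal.span {(m : R)})) := by
  constructor
  · intro h
    ext i j
    rw [Matrix.map_apply, Matrix.map_apply, Ideal.Quotient.eq, Ideal.mem_span_singleton]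
    exact h i j
  · intro h i j
    have := congrFun (congrFun h i) j
    rw [Matrix.map_apply, Matrix.map_apply, Ideal.Quotient.eq, Ideal.mem_span_singleton] at this
    exact this

theorem S_EXA_refl (m : ℕ) (A : Matrix (Fin n) (Fin n) R) : MC m A A := by
  rw [S_EXA_iff]

theorem S_EXA_symm {m : ℕ} {A B : Matrix (Fin n) (Fin n) R} (h : MC m A B) : MC m B A := by
  rw [S_EXA_iff] at h ⊢
  exact h.symm

theorem S_EXA_trans {m : ℕ} {A B C : Matrix (Fin n) (Fin n) R} (h : MC m A B) (h' : MC m B C) :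
    MC m A C := by
  rw [S_EXA_iff] at h h' ⊢
  exact h.trans h'

theorem S_EXA_mul {m : ℕ} {A B C D : Matrix (Fin n) (Fin n) R} (h : MC m A B) (h' : MC m C D) :
    MC m (A * C) (B * D) := by
  rw [S_EXA_iff] at h h' ⊢
  rw [Matrix.map_mul, Matrix.map_mul, h, h']

theorem S_EXA_det {m : ℕ} {A B : Matrix (Fin n) (Fin n) R} (h : MC m A B) :
    (m : R) ∣ A.det - B.det := by
  rw [S_EXA_iff] at h
  rw [← Ideal.mem_span_singleton, ← Ideal.Quotient.eq, RingHom.map_det, RingHom.map_det]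
  exact congrArg Matrix.det h

theorem S_EXA_mono {m m' : ℕ} (hm : m ∣ m') {A B : Matrix (Fin n) (Fin n) R} (h : MC m' A B) :
    MC m A B := fun i j => (Nat.cast_dvd_cast hm).trans (h i j)

end MC

/-- the condition at `(i, M)` -/
def S_EXA_cond {n : ℕ} {L : Type} [Group L] (S : Sys (SLZ n) L) (p : ℕ) [Fact p.Prime] (l : L)
    (i : ℕ) (M : FiniteIndexNormalSubgroup L) (A : Matrix (Fin n) (Fin n) ℤ_[p]) : Prop :=
  ∃ γ : SLZ n, S.g M γ = (l : L ⧸ M.toSubgroup) ∧ ∃ c : ℤ_[p], MC (p ^ i) A (c • stdM ℤ_[p] γ)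

theorem S_EXA_open (n p : ℕ) [Fact p.Prime] (i : ℕ) (A : Matrix (Fin n) (Fin n) ℤ_[p]) :
    IsOpen {B : Matrix (Fin n) (Fin n) ℤ_[p] | MC (p ^ i) B A} := by
  have h1 : ∀ a : ℤ_[p], IsOpen {x : ℤ_[p] | ((p ^ i : ℕ) : ℤ_[p]) ∣ x - a} := by
    intro a
    have e : {x : ℤ_[p] | ((p ^ i : ℕ) : ℤ_[p]) ∣ x - a} = Metric.closedBall a ((p : ℝ) ^ (-i : ℤ)) := by
      ext x
      rw [Set.mem_setOf_eq, Metric.mem_closedBall, dist_eq_norm, PadicInt.norm_le_pow_iff_mem_span_pow,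
        Ideal.mem_span_singleton, Nat.cast_pow]
    rw [e]
    apply IsUltrametricDist.isOpen_closedBall
    have hp : (0 : ℝ) < p := by exact_mod_cast (Fact.out : p.Prime).pos
    exact (zpow_pos hp _).ne'
  have e : {B : Matrix (Fin n) (Fin n) ℤ_[p] | MC (p ^ i) B A} =
      ⋂ a : Fin n, ⋂ b : Fin n, (fun B : Matrix (Fin n) (Fin n) ℤ_[p] => B a b) ⁻¹'
        {x : ℤ_[p] | ((p ^ i : ℕ) : ℤ_[p]) ∣ x - A a b} := by
    ext B
    simp only [MC, Set.mem_setOf_eq, Set.mem_iInter, Set.mem_preimage]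
  rw [e]
  apply isOpen_iInter_of_finite
  intro a
  apply isOpen_iInter_of_finite
  intro b
  exact (h1 _).preimage (continuous_id.matrix_elem a b)

theorem S_EXA_closed {n : ℕ} {L : Type} [Group L] (S : Sys (SLZ n) L) (p : ℕ) [Fact p.Prime] (l : L)
    (i : ℕ) (M : FiniteIndexNormalSubgroup L) :
    IsClosed {A : Matrix (Fin n) (Fin n) ℤ_[p] | S_EXA_cond S p l i M A} := by
  rw [← isOpen_compl_iff, isOpen_iff_forall_mem_open]
  intro A hA
  refine ⟨{B | MC (p ^ i) B A}, ?_, S_EXA_open n p i A, S_EXA_refl _ _⟩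
  rintro B hB ⟨γ, h1, c, h2⟩
  exact hA ⟨γ, h1, c, S_EXA_trans (S_EXA_symm hB) h2⟩

theorem S_EXA_exists {n : ℕ} {L : Type} [Group L] (S : Sys (SLZ n) L) (p : ℕ) [Fact p.Prime] (l : L) :
    ∃ A : Matrix (Fin n) (Fin n) ℤ_[p], A.det = 1 ∧ ∀ i M, S_EXA_cond S p l i M A := by
  haveI : CompactSpace (Matrix (Fin n) (Fin n) ℤ_[p]) :=
    inferInstanceAs (CompactSpace (Fin n → Fin n → ℤ_[p]))
  haveI : Nonempty (ℕ × FiniteIndexNormalSubgroup L) :=
    ⟨(0, { toSubgroup := ⊤, isNormal' := inferInstance, isFiniteIndex' := inferInstance })⟩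
  have hc : ∀ k : ℕ × FiniteIndexNormalSubgroup L, IsClosed
      {A : Matrix (Fin n) (Fin n) ℤ_[p] | A.det = 1 ∧ S_EXA_cond S p l k.1 k.2 A} := by
    intro k
    rw [Set.setOf_and]
    apply IsClosed.inter
    · exact isClosed_eq (continuous_id.matrix_det) continuous_const
    · exact S_EXA_closed S p l k.1 k.2
  have hne : (⋂ k : ℕ × FiniteIndexNormalSubgroup L,
      {A : Matrix (Fin n) (Fin n) ℤ_[p] | A.det = 1 ∧ S_EXA_cond S p l k.1 k.2 A}).Nonempty := by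
    apply IsCompact.nonempty_iInter_of_directed_nonempty_isCompact_isClosed
    · intro k k'
      refine ⟨(max k.1 k'.1, k.2 ⊓ k'.2), ?_, ?_⟩
      · rintro A ⟨h0, γ, h1, c, h2⟩
        refine ⟨h0, γ, S.compat _ _ inf_le_left γ l h1, c, S_EXA_mono (pow_dvd_pow p (le_max_left _ _)) h2⟩
      · rintro A ⟨h0, γ, h1, c, h2⟩
        refine ⟨h0, γ, S.compat _ _ inf_le_right γ l h1, c, S_EXA_mono (pow_dvd_pow p (le_max_right _ _)) h2⟩
    · intro k
      obtain ⟨γ, hγ⟩ := S.surj k.2 (l : L ⧸ k.2.toSubgroup)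
      refine ⟨stdM ℤ_[p] γ, det_stdM _ _, γ, hγ, 1, ?_⟩
      rw [one_smul]
      exact S_EXA_refl _ _
    · intro k
      exact (hc k).isCompact
    · exact hc
  obtain ⟨A, hA⟩ := hne
  rw [Set.mem_iInter] at hA
  exact ⟨A, (hA (Classical.arbitrary _)).1, fun i M => (hA (i, M)).2⟩

theorem S_EXA_dvd_zero (p : ℕ) [Fact p.Prime] (x : ℤ_[p]) (h : ∀ i : ℕ, ((p ^ i : ℕ) : ℤ_[p]) ∣ x) :
    x = 0 := by
  by_contra hx
  have h1 : ∀ i : ℕ, ‖x‖ ≤ (p : ℝ) ^ (-i : ℤ) := by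
    intro i
    rw [PadicInt.norm_le_pow_iff_mem_span_pow, Ideal.mem_span_singleton, ← Nat.cast_pow]
    exact h i
  have hp : (1 : ℝ) < p := by exact_mod_cast (Fact.out : p.Prime).one_lt
  have hx' : 0 < ‖x‖ := norm_pos_iff.2 hx
  obtain ⟨i, hi⟩ := exists_pow_lt_of_lt_one hx' (inv_lt_one_of_one_lt₀ hp)
  have h2 := h1 i
  rw [_root_.zpow_neg, _root_.zpow_natCast, ← inv_pow] at h2
  exact absurd h2 (not_le.2 hi)

theorem S_EXA (hSAND : S_SAND_stmt) : S_EXA_stmt := by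
  intro n hn L _ S p _ hU
  -- kernel elements are scalar
  have hker : ∀ (M : FiniteIndexNormalSubgroup L) (γ : SLZ n) (i : ℕ), S.g M γ = 1 →
      p ^ i ∣ lev hn S M → ∃ c : ℤ_[p], MC (p ^ i) (stdM ℤ_[p] γ) (c • (1 : Matrix (Fin n) (Fin n) ℤ_[p])) := by
    intro M γ i h1 h2
    haveI : Finite (L ⧸ M.toSubgroup) := by
      haveI := M.isFiniteIndex'
      exact Subgroup.finite_quotient_of_finiteIndex
    obtain ⟨h3, h4⟩ := (hSAND n hn (L ⧸ M.toSubgroup) (S.g M)).2 γ h1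
    have hn0 : 0 < n := by omega
    have key : ∀ a : ℤ, ((orderOf ((S.g M) (e01 n hn)) : ℕ) : ℤ) ∣ a → ((p ^ i : ℕ) : ℤ_[p]) ∣ (a : ℤ_[p]) := by
      intro a ha
      have h5 : ((p ^ i : ℕ) : ℤ) ∣ a := (Int.natCast_dvd_natCast.2 h2).trans ha
      obtain ⟨b, rfl⟩ := h5
      exact ⟨(b : ℤ_[p]), by push_cast; ring⟩
    refine ⟨(((γ : Matrix (Fin n) (Fin n) ℤ) ⟨0, hn0⟩ ⟨0, hn0⟩ : ℤ) : ℤ_[p]), ?_⟩
    intro a b
    rw [stdM, Matrix.map_apply, Matrix.smul_apply, smul_eq_mul, eq_intCast]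
    by_cases hab : a = b
    · subst hab
      rw [Matrix.one_apply_eq, mul_one, ← Int.cast_sub]
      exact key _ (h4 _ _)
    · rw [Matrix.one_apply_ne hab, mul_zero, sub_zero]
      exact key _ (h3 _ _ hab)
  refine ⟨?_, ?_, ?_, ?_, ?_, ?_⟩
  · intro l
    obtain ⟨A, hA, hA'⟩ := S_EXA_exists S p l
    refine ⟨⟨A, A.adjugate, by rw [Matrix.mul_adjugate, hA, one_smul],
      by rw [Matrix.adjugate_mul, hA, one_smul]⟩, hA, hA'⟩
  · rintro l l' X X' ⟨h1, h2⟩ ⟨h1', h2'⟩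
    refine ⟨by rw [Units.val_mul, Matrix.det_mul, h1, h1', one_mul], ?_⟩
    intro i M
    obtain ⟨γ, h3, c, h4⟩ := h2 i M
    obtain ⟨γ', h3', c', h4'⟩ := h2' i M
    refine ⟨γ * γ', ?_, c * c', ?_⟩
    · rw [map_mul, h3, h3']; rfl
    · have h5 := S_EXA_mul h4 h4'
      rw [Matrix.smul_mul, Matrix.mul_smul, smul_smul, ← stdM_mul] at h5
      rw [Units.val_mul]
      exact h5
  · rintro l X ⟨h1, h2⟩
    have hXX : (X : Matrix (Fin n) (Fin n) ℤ_[p]) * ((X⁻¹ : GL (Fin n) ℤ_[p]) : Matrix (Fin n) (Fin n) ℤ_[p]) = 1 :=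
      Units.mul_inv X
    have hXX' : ((X⁻¹ : GL (Fin n) ℤ_[p]) : Matrix (Fin n) (Fin n) ℤ_[p]) * (X : Matrix (Fin n) (Fin n) ℤ_[p]) = 1 :=
      Units.inv_mul X
    refine ⟨?_, ?_⟩
    · have := congrArg Matrix.det hXX
      rw [Matrix.det_mul, h1, one_mul, Matrix.det_one] at this
      exact this
    · intro i M
      obtain ⟨γ, h3, c, h4⟩ := h2 i M
      refine ⟨γ⁻¹, ?_, c ^ (n - 1), ?_⟩
      · rw [map_inv, h3]; rfl
      · have hd := S_EXA_det h4
        rw [h1, Matrix.det_smul, det_stdM, mul_one, Fintype.card_fin] at hd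
        have h5 := S_EXA_mul (S_EXA_mul (S_EXA_refl (p ^ i) ((X⁻¹ : GL (Fin n) ℤ_[p]) : Matrix (Fin n) (Fin n) ℤ_[p])) h4)
          (S_EXA_refl (p ^ i) (c ^ (n - 1) • stdM ℤ_[p] γ⁻¹))
        rw [hXX', one_mul, Matrix.mul_assoc, Matrix.smul_mul, Matrix.mul_smul, Matrix.mul_smul, stdM_mul_inv,
          Matrix.mul_smul, smul_smul, mul_one] at h5
        have hcn : c * c ^ (n - 1) = c ^ n := by
          rw [← pow_succ']; congr 1; omega
        rw [hcn] at h5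
        have h6 : MC (p ^ i) (c ^ n • ((X⁻¹ : GL (Fin n) ℤ_[p]) : Matrix (Fin n) (Fin n) ℤ_[p]))
            ((X⁻¹ : GL (Fin n) ℤ_[p]) : Matrix (Fin n) (Fin n) ℤ_[p]) := by
          intro a b
          rw [Matrix.smul_apply, smul_eq_mul]
          have e : c ^ n * ((X⁻¹ : GL (Fin n) ℤ_[p]) : Matrix (Fin n) (Fin n) ℤ_[p]) a b -
              ((X⁻¹ : GL (Fin n) ℤ_[p]) : Matrix (Fin n) (Fin n) ℤ_[p]) a b =
              (1 - c ^ n) * (-((X⁻¹ : GL (Fin n) ℤ_[p]) : Matrix (Fin n) (Fin n) ℤ_[p]) a b) := by ring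
          rw [e]
          exact Dvd.dvd.mul_right hd _
        exact S_EXA_symm (S_EXA_trans h5 h6)
  · refine ⟨by rw [Units.val_one, Matrix.det_one], ?_⟩
    intro i M
    refine ⟨1, by rw [map_one]; rfl, 1, ?_⟩
    rw [one_smul, stdM_one, Units.val_one]
    exact S_EXA_refl _ _
  · rintro X ⟨h1, h2⟩
    have hn0 : 0 < n := by omega
    have hsc : ∀ i : ℕ, ∃ c : ℤ_[p], MC (p ^ i) (X : Matrix (Fin n) (Fin n) ℤ_[p])
        (c • (1 : Matrix (Fin n) (Fin n) ℤ_[p])) := by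
      intro i
      obtain ⟨M, hM⟩ := hU i
      obtain ⟨γ, h3, c, h4⟩ := h2 i M
      obtain ⟨d, hd⟩ := hker M γ i h3 hM
      refine ⟨c * d, ?_⟩
      apply S_EXA_trans h4
      intro a b
      have := hd a b
      rw [Matrix.smul_apply, Matrix.smul_apply, smul_eq_mul, smul_eq_mul, mul_assoc, ← mul_sub]
      rw [Matrix.smul_apply, smul_eq_mul] at this
      exact Dvd.dvd.mul_left this _
    have hsc' : (X : Matrix (Fin n) (Fin n) ℤ_[p]) =
        ((X : Matrix (Fin n) (Fin n) ℤ_[p]) ⟨0, hn0⟩ ⟨0, hn0⟩) • (1 : Matrix (Fin n) (Fin n) ℤ_[p]) := by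
      ext a b
      rw [Matrix.smul_apply, smul_eq_mul]
      by_cases hab : a = b
      · subst hab
        rw [Matrix.one_apply_eq, mul_one, ← sub_eq_zero]
        apply S_EXA_dvd_zero
        intro i
        obtain ⟨c, hc⟩ := hsc i
        have h5 := hc a a
        have h6 := hc ⟨0, hn0⟩ ⟨0, hn0⟩
        rw [Matrix.smul_apply, Matrix.one_apply_eq] at h5 h6
        have h7 := dvd_sub h5 h6
        have e : ((X : Matrix (Fin n) (Fin n) ℤ_[p]) a a - c • 1 -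
          ((X : Matrix (Fin n) (Fin n) ℤ_[p]) ⟨0, hn0⟩ ⟨0, hn0⟩ - c • 1)) =
          (X : Matrix (Fin n) (Fin n) ℤ_[p]) a a - (X : Matrix (Fin n) (Fin n) ℤ_[p]) ⟨0, hn0⟩ ⟨0, hn0⟩ := by ring
        rw [e] at h7
        exact h7
      · rw [Matrix.one_apply_ne hab, mul_zero]
        apply S_EXA_dvd_zero
        intro i
        obtain ⟨c, hc⟩ := hsc i
        have h5 := hc a b
        rw [Matrix.smul_apply, Matrix.one_apply_ne hab, smul_zero, sub_zero] at h5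
        exact h5
    refine ⟨_, ?_, hsc'⟩
    rw [hsc', Matrix.det_smul, Matrix.det_one, mul_one, Fintype.card_fin] at h1
    exact h1
  · rintro l X i M γ ⟨h1, h2⟩ h3 h4
    obtain ⟨γ', h3', c', h4'⟩ := h2 i M
    obtain ⟨d, hd⟩ := hker M (γ' * γ⁻¹) i (by rw [map_mul, map_inv, h3, h3', mul_inv_cancel]) h4
    refine ⟨c' * d, ?_⟩
    apply S_EXA_trans h4'
    have h5 := S_EXA_mul hd (S_EXA_refl (p ^ i) (stdM ℤ_[p] γ))
    rw [← stdM_mul, inv_mul_cancel_right, Matrix.smul_mul, one_mul] at h5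
    intro a b
    have := h5 a b
    rw [Matrix.smul_apply, Matrix.smul_apply, smul_eq_mul, smul_eq_mul, mul_assoc, ← mul_sub]
    rw [Matrix.smul_apply, smul_eq_mul] at this
    exact Dvd.dvd.mul_left this _

end Pool.Agent.PR
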