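import Pool.Agent.helper5.PR.SpecS
import Pool.Agent.helper38.PR.S_EXA

/-!
Project pr, module S-EXT: the extension.
-/

set_option autoImplicit false

namespace Pool.Agent.PR

open Matrix

/-- reduction modulo `p ^ i` -/
noncomputable def S_EXT_red (n p : ℕ) [Fact p.Prime] (i : ℕ) :
    GL (Fin n) ℤ_[p] →* (Matrix (Fin n) (Fin n) (ZMod (p ^ i)))ˣ :=
  Units.map (RingHom.mapMatrix (PadicInt.toZModPow i)).toMonoidHom

theorem S_EXT_red_iff (n p : ℕ) [Fact p.Prime] (i : ℕ) (X : GL (Fin n) ℤ_[p]) :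
    S_EXT_red n p i X = 1 ↔ MC (p ^ i) (X : Matrix (Fin n) (Fin n) ℤ_[p]) 1 := by
  have key : ∀ x y : ℤ_[p], PadicInt.toZModPow i x = PadicInt.toZModPow i y ↔
      ((p ^ i : ℕ) : ℤ_[p]) ∣ x - y := by
    intro x y
    rw [← sub_eq_zero, ← map_sub, ← RingHom.mem_ker, PadicInt.ker_toZModPow, Ideal.mem_span_singleton,
      Nat.cast_pow]
  rw [Units.ext_iff]
  have e : ((S_EXT_red n p i X : (Matrix (Fin n) (Fin n) (ZMod (p ^ i)))ˣ) :
      Matrix (Fin n) (Fin n) (ZMod (p ^ i))) = (X : Matrix (Fin n) (Fin n) ℤ_[p]).map (PadicInt.toZModPow i) := rfl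
  rw [e]
  constructor
  · intro h a b
    rw [← key]
    have h1 := congrFun (congrFun h a) b
    rw [Matrix.map_apply] at h1
    rw [h1, Units.val_one]
    by_cases hab : a = b
    · subst hab
      rw [Matrix.one_apply_eq, Matrix.one_apply_eq, map_one]
    · rw [Matrix.one_apply_ne hab, Matrix.one_apply_ne hab, map_zero]
  · intro h
    ext a b
    rw [Matrix.map_apply, (key _ _).2 (h a b), Units.val_one]
    by_cases hab : a = b
    · subst hab
      rw [Matrix.one_apply_eq, Matrix.one_apply_eq, map_one]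
    · rw [Matrix.one_apply_ne hab, Matrix.one_apply_ne hab, map_zero]

/-- a finite set of matrices different from `1` is separated from `1` at some level -/
theorem S_EXT_sep (n p : ℕ) [Fact p.Prime] {T : Type} (s : Set T) (hs : s.Finite)
    (r : T → GL (Fin n) ℤ_[p]) :
    ∃ i : ℕ, ∀ x ∈ s, MC (p ^ i) (r x : Matrix (Fin n) (Fin n) ℤ_[p]) 1 → r x = 1 := by
  have h1 : ∀ X : GL (Fin n) ℤ_[p], ∃ i : ℕ, ∀ j, i ≤ j →
      MC (p ^ j) (X : Matrix (Fin n) (Fin n) ℤ_[p]) 1 → X = 1 := by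
    intro X
    by_contra hcon
    push Not at hcon
    have h2 : ∀ i : ℕ, MC (p ^ i) (X : Matrix (Fin n) (Fin n) ℤ_[p]) 1 := by
      intro i
      obtain ⟨j, hj, h3, -⟩ := hcon i
      exact S_EXA_mono (pow_dvd_pow p hj) h3
    obtain ⟨j, -, -, h4⟩ := hcon 0
    apply h4
    apply Units.ext
    ext a b
    rw [Units.val_one, ← sub_eq_zero]
    exact S_EXA_dvd_zero p _ (fun i => h2 i a b)
  choose i hi using h1
  obtain ⟨N, hN⟩ := (hs.image (fun x => i (r x))).bddAbove
  refine ⟨N, fun x hx h => hi (r x) N ?_ h⟩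
  exact hN ⟨x, hx, rfl⟩

theorem S_EXT (hEXB : S_EXB_stmt) : S_EXT_stmt := by
  intro n hn L _ hFG hRF S p _ hU
  obtain ⟨hA, hB, hC, hD, hE, hF, hG, hH⟩ := hEXB n hn L hFG hRF S p hU
  let Λ : Type := commutator (ExtG S p)
  let ρ : commutator (ExtG S p) →* GL (Fin n) ℤ_[p] :=
    ((MonoidHom.snd L (GL (Fin n) ℤ_[p])).comp (ExtG S p).subtype).comp (commutator (ExtG S p)).subtype
  let π : commutator (ExtG S p) →* L :=
    ((MonoidHom.fst L (GL (Fin n) ℤ_[p])).comp (ExtG S p).subtype).comp (commutator (ExtG S p)).subtype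
  have hπsurj : Function.Surjective π := by
    intro l
    obtain ⟨x, hx, hx'⟩ := hD l
    exact ⟨⟨x, hx⟩, hx'⟩
  have hext : ∀ x : commutator (ExtG S p), π x = 1 → ρ x = 1 → x = 1 := by
    intro x h1 h2
    apply Subtype.ext
    apply Subtype.ext
    exact Prod.ext h1 h2
  have hfin : {x : commutator (ExtG S p) | π x = 1}.Finite := by
    have := hE.preimage (f := fun x : commutator (ExtG S p) => (x : ExtG S p))
      (Subtype.val_injective.injOn)
    exact this
  -- the quotients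
  have hQ : QuotLe (commutator (ExtG S p)) (SLZ n) := by
    rintro Q _ _ ⟨f, hf⟩
    obtain ⟨i₀, hi₀⟩ := S_EXT_sep n p {x : commutator (ExtG S p) | π x = 1} hfin ρ
    haveI : Finite (Matrix (Fin n) (Fin n) (ZMod (p ^ i₀))) := by
      haveI : NeZero (p ^ i₀) := ⟨pow_ne_zero _ (Fact.out : p.Prime).ne_zero⟩
      exact inferInstanceAs (Finite (Fin n → Fin n → ZMod (p ^ i₀)))
    let W : Subgroup (commutator (ExtG S p)) := f.ker ⊓ ((S_EXT_red n p i₀).comp ρ).ker
    haveI hWn : W.Normal := Subgroup.normal_inf_normal _ _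
    haveI hWf : W.FiniteIndex := by
      haveI : f.ker.FiniteIndex := Subgroup.finiteIndex_ker f
      haveI : ((S_EXT_red n p i₀).comp ρ).ker.FiniteIndex := Subgroup.finiteIndex_ker _
      exact inferInstanceAs ((f.ker ⊓ ((S_EXT_red n p i₀).comp ρ).ker).FiniteIndex)
    have hWmem : ∀ x, x ∈ W ↔ f x = 1 ∧ MC (p ^ i₀) (ρ x : Matrix (Fin n) (Fin n) ℤ_[p]) 1 := by
      intro x
      rw [Subgroup.mem_inf, MonoidHom.mem_ker, MonoidHom.mem_ker, MonoidHom.comp_apply, S_EXT_red_iff]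
    obtain ⟨M, hM⟩ : ∃ M : FiniteIndexNormalSubgroup L, M.toSubgroup = W.map π :=
      ⟨{ toSubgroup := W.map π
         isNormal' := Subgroup.Normal.map hWn π hπsurj
         isFiniteIndex' := ⟨fun h => hWf.index_ne_zero (by
          have := Subgroup.index_map_dvd W hπsurj
          rw [h] at this
          exact Nat.eq_zero_of_zero_dvd this)⟩ }, rfl⟩
    have hMW : ∀ x, π x ∈ M.toSubgroup → MC (p ^ i₀) (ρ x : Matrix (Fin n) (Fin n) ℤ_[p]) 1 → f x = 1 := by
      intro x h1 h2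
      rw [hM] at h1
      obtain ⟨w, hw, hw'⟩ := h1
      have h3 := (hWmem w).1 hw
      have h4 : MC (p ^ i₀) (ρ (x * w⁻¹) : Matrix (Fin n) (Fin n) ℤ_[p]) 1 := by
        rw [← S_EXT_red_iff, map_mul, map_mul, map_inv, map_inv, (S_EXT_red_iff n p i₀ (ρ x)).2 h2,
          (S_EXT_red_iff n p i₀ (ρ w)).2 h3.2, inv_one, mul_one]
      have h5 : π (x * w⁻¹) = 1 := by rw [map_mul, map_inv, hw', mul_inv_cancel]
      have h6 : x * w⁻¹ = 1 := hext _ h5 (hi₀ _ h5 h4)
      have h7 : x = w := mul_inv_eq_one.1 h6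
      rw [h7]
      exact h3.1
    have hex : ∀ γ : SLZ n, ∃ x : commutator (ExtG S p), S.g M γ = (π x : L ⧸ M.toSubgroup) ∧
        MC (p ^ i₀) (ρ x : Matrix (Fin n) (Fin n) ℤ_[p]) (stdM ℤ_[p] γ) := by
      intro γ
      obtain ⟨x, hx, h1, h2⟩ := hG γ i₀ M
      exact ⟨⟨x, hx⟩, h1, h2⟩
    have huni : ∀ (γ : SLZ n) (x x' : commutator (ExtG S p)), S.g M γ = (π x : L ⧸ M.toSubgroup) →
        MC (p ^ i₀) (ρ x : Matrix (Fin n) (Fin n) ℤ_[p]) (stdM ℤ_[p] γ) →
        S.g M γ = (π x' : L ⧸ M.toSubgroup) →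
        MC (p ^ i₀) (ρ x' : Matrix (Fin n) (Fin n) ℤ_[p]) (stdM ℤ_[p] γ) → f x = f x' := by
      intro γ x x' h1 h2 h3 h4
      have h5 : (π x : L ⧸ M.toSubgroup) = (π x' : L ⧸ M.toSubgroup) := by rw [← h1, h3]
      have h6 : (π x)⁻¹ * π x' ∈ M.toSubgroup := QuotientGroup.eq.1 h5
      have h7 : MC (p ^ i₀) (ρ (x⁻¹ * x') : Matrix (Fin n) (Fin n) ℤ_[p]) 1 := by
        have h8 := S_EXA_mul (S_EXA_refl (p ^ i₀) (((ρ x)⁻¹ : GL (Fin n) ℤ_[p]) : Matrix (Fin n) (Fin n) ℤ_[p]))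
          (S_EXA_trans h4 (S_EXA_symm h2))
        rw [Units.inv_mul] at h8
        rw [map_mul, map_inv, Units.val_mul]
        exact h8
      have h8 := hMW (x⁻¹ * x') (by rw [map_mul, map_inv]; exact h6) h7
      rw [map_mul, map_inv] at h8
      exact inv_mul_eq_one.1 h8
    choose X hX1 hX2 using hex
    refine ⟨{ toFun := fun γ => f (X γ), map_one' := ?_, map_mul' := ?_ }, ?_⟩
    · rw [← map_one f]
      apply huni 1 _ _ (hX1 1) (hX2 1)
      · rw [map_one, map_one]; rfl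
      · rw [map_one, Units.val_one, stdM_one]
        exact S_EXA_refl _ _
    · intro γ δ
      rw [← map_mul f]
      apply huni (γ * δ) _ _ (hX1 _) (hX2 _)
      · rw [map_mul, map_mul, hX1, hX1]; rfl
      · rw [map_mul, Units.val_mul, stdM_mul]
        exact S_EXA_mul (hX2 γ) (hX2 δ)
    · intro q
      obtain ⟨x, rfl⟩ := hf q
      obtain ⟨γ, h1, h2⟩ := hH x.1 x.2 i₀ M
      exact ⟨γ, huni γ _ _ (hX1 γ) (hX2 γ) h1 h2⟩
  refine ⟨commutator (ExtG S p), inferInstance, π, ρ, hB, hQ, hC, hπsurj, ?_, ?_, ?_, ?_⟩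
  · exact hfin.to_subtype
  · intro x hx
    rw [Subgroup.mem_center_iff]
    intro y
    apply Subtype.ext
    exact (hF x.1 hx y.1).symm
  · -- infinite range
    intro hfinr
    classical
    have hn1 : 1 < n := by omega
    have hp : 1 < p := (Fact.out : p.Prime).one_lt
    set N := hfinr.toFinset.card with hN
    obtain ⟨i, hi⟩ : ∃ i : ℕ, N + 1 ≤ p ^ i := ⟨N + 1, (Nat.lt_pow_self hp).le⟩
    let M : FiniteIndexNormalSubgroup L :=
      { toSubgroup := ⊤, isNormal' := inferInstance, isFiniteIndex' := inferInstance }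
    have hne : (⟨0, by omega⟩ : Fin n) ≠ ⟨1, by omega⟩ := by simp
    have h1 : ∀ k : Fin (N + 1), ∃ x : commutator (ExtG S p),
        MC (p ^ i) (ρ x : Matrix (Fin n) (Fin n) ℤ_[p]) (stdM ℤ_[p] (el ⟨0, by omega⟩ ⟨1, by omega⟩ hne (k : ℕ))) := by
      intro k
      obtain ⟨x, hx, -, h2⟩ := hG (el ⟨0, by omega⟩ ⟨1, by omega⟩ hne (k : ℕ)) i M
      exact ⟨⟨x, hx⟩, h2⟩
    choose X hX using h1
    have hinj : Function.Injective (fun k : Fin (N + 1) => ρ (X k)) := by
      intro k k' hkk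
      have h2 := S_EXA_trans (S_EXA_symm (hX k)) (by
        have := hX k'
        rw [show ρ (X k') = ρ (X k) from hkk.symm] at this
        exact this)
      have h3 := h2 ⟨0, by omega⟩ ⟨1, by omega⟩
      rw [stdM, stdM, Matrix.map_apply, Matrix.map_apply, el_coe, el_coe, Matrix.add_apply, Matrix.add_apply,
        Matrix.one_apply_ne hne, Matrix.single_apply_same, Matrix.single_apply_same, zero_add, zero_add,
        eq_intCast, eq_intCast, ← Int.cast_sub] at h3
      rw [Nat.cast_pow, ← Ideal.mem_span_singleton, ← PadicInt.ker_toZModPow, RingHom.mem_ker, map_intCast,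
        ZMod.intCast_zmod_eq_zero_iff_dvd] at h3
      have h4 : |((k : ℕ) : ℤ) - ((k' : ℕ) : ℤ)| < ((p ^ i : ℕ) : ℤ) := by
        have a1 : ((k : ℕ) : ℤ) < (p ^ i : ℕ) := by
          have := k.2
          exact_mod_cast (by omega : (k : ℕ) < p ^ i)
        have a2 : ((k' : ℕ) : ℤ) < (p ^ i : ℕ) := by
          have := k'.2
          exact_mod_cast (by omega : (k' : ℕ) < p ^ i)
        rw [abs_lt]
        constructor <;> omega
      have h5 := Int.eq_zero_of_abs_lt_dvd h3 h4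
      apply Fin.ext
      omega
    have h6 : Finset.univ.image (fun k : Fin (N + 1) => ρ (X k)) ⊆ hfinr.toFinset := by
      intro y hy
      obtain ⟨k, -, rfl⟩ := Finset.mem_image.1 hy
      rw [Set.Finite.mem_toFinset]
      exact ⟨_, rfl⟩
    have h7 := Finset.card_le_card h6
    rw [Finset.card_image_of_injective _ hinj, Finset.card_univ, Fintype.card_fin] at h7
    omega
  · intro x
    exact hA x.1

end Pool.Agent.PR
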