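import Pool.Agent.helper5.PR.SpecX

set_option autoImplicit false

/-!
Project pr, module X-CQL: finite quotients of `SL(n, ℤ[1/m]) × SL(n, ℤ/d)`.
-/

namespace Pool.Agent.PR

open Matrix

theorem X_CQL_cg (n m k : ℕ) (δ : SLZ n) (h : redZ n k δ = 1) : CgI k (incI n m δ) := by
  intro i j
  have h1 : ((δ : Matrix (Fin n) (Fin n) ℤ) i j : ZMod k) = (1 : Matrix (Fin n) (Fin n) (ZMod k)) i j := by
    have h2 := congrArg (fun x : SLd n k => (x : Matrix (Fin n) (Fin n) (ZMod k)) i j) h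
    exact h2
  have h3 : (((δ : Matrix (Fin n) (Fin n) ℤ) i j - (1 : Matrix (Fin n) (Fin n) ℤ) i j : ℤ) : ZMod k) = 0 := by
    rw [Int.cast_sub, h1, sub_eq_zero, Matrix.one_apply, Matrix.one_apply]
    split_ifs <;> simp
  rw [ZMod.intCast_zmod_eq_zero_iff_dvd] at h3
  obtain ⟨a, ha⟩ := h3
  refine ⟨algebraMap ℤ (ZI m) a, ?_⟩
  have h4 : ratM (incI n m δ) i j = (((δ : Matrix (Fin n) (Fin n) ℤ) i j : ℤ) : ℚ) := by
    rfl
  have h5 : ((algebraMap ℤ (ZI m) a : ZI m) : ℚ) = (a : ℚ) := rfl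
  have h6 : (1 : Matrix (Fin n) (Fin n) ℚ) i j = (((1 : Matrix (Fin n) (Fin n) ℤ) i j : ℤ) : ℚ) := by
    rw [Matrix.one_apply, Matrix.one_apply]
    split_ifs <;> simp
  rw [h4, h5, h6, ← Int.cast_sub, ha]
  push_cast
  ring

theorem X_CQL (hCSI : X_CSI_stmt) (hCRT : X_CRT_stmt) (hRSJ : X_RSJ_stmt) : X_CQL_stmt := by
  intro n hn m d hm hd hq Q _ _ hφ
  obtain ⟨φ, hφ⟩ := hφ
  obtain ⟨k, hk, hkm, hk1, hk2⟩ := hCSI n hn m hm Q (φ.comp (MonoidHom.inl (SLI n m) (SLd n d)))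
  have hkd : k.Coprime d := by
    rw [Nat.coprime_iff_gcd_eq_one] at hkm ⊢
    by_contra hne
    obtain ⟨q, hq1, hq2⟩ := Nat.exists_prime_and_dvd hne
    have h1 : q ∣ k := hq2.trans (Nat.gcd_dvd_left _ _)
    have h2 : q ∣ d := hq2.trans (Nat.gcd_dvd_right _ _)
    have h3 := Nat.dvd_gcd h1 (hq q hq1 h2)
    rw [hkm] at h3
    exact hq1.one_lt.ne' (Nat.dvd_one.mp h3)
  refine ⟨φ.comp (MonoidHom.prod (incI n m) (redZ n d)), ?_⟩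
  intro y
  obtain ⟨⟨x, c⟩, rfl⟩ := hφ y
  obtain ⟨γ₁, hγ₁⟩ := hk2 x
  obtain ⟨γ₂, hγ₂⟩ := hRSJ n d hd c
  obtain ⟨γ, hγ, hγ'⟩ := hCRT n k d hk hd hkd γ₁ γ₂
  refine ⟨γ, ?_⟩
  have h1 : redZ n k (γ * γ₁⁻¹) = 1 := by
    rw [map_mul, map_inv, hγ, mul_inv_cancel]
  have h2 := hk1 _ (X_CQL_cg n m k _ h1)
  rw [map_mul, map_mul, map_inv, map_inv, mul_inv_eq_one] at h2
  have h3 : φ (incI n m γ, 1) = φ (x, 1) := h2.trans hγ₁
  change φ (incI n m γ, redZ n d γ) = φ (x, c)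
  have h4 : (incI n m γ, redZ n d γ) = (incI n m γ, 1) * ((1, c) : SLI n m × SLd n d) := by
    rw [Prod.mk_mul_mk, mul_one, one_mul, hγ', hγ₂]
  have h5 : (x, c) = (x, 1) * ((1, c) : SLI n m × SLd n d) := by
    rw [Prod.mk_mul_mk, mul_one, one_mul]
  rw [h4, h5, map_mul, map_mul, h3]

end Pool.Agent.PR
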